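import Mathlib

/-!
# Products of conjugacy classes under Kervaire extensions: iterated abelian coefficients

For an arbitrary group `G` and a nonsingular system `w_1, …, w_n` over `G` whose equations can be
sorted into levels so that the coefficients of each level lie in a subgroup which is abelian modulo
the lower levels, the Kervaire extension `G → H` reflects all product-one relations between
conjugacy classes of elements of `G` (Q1 of MP_9999b4_al, all `r`).

Idea: the diagonal of a permutational wreath product `G wr Sym(X)` reflects product-one relations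
(`core`), and an abelian group `A` acting diagonally extends to any abelian overgroup `B` of `A`
through the transversal cocycle of `B / A` (`act2`).
-/

set_option autoImplicit false

namespace Pool.Agent.H76.IterAb

open Monoid

/-! ### Step 1: diagonal of a permutational wreath product reflects product-one relations -/

section Wreath

variable {G H X : Type*} [Group G] [Group H]

/-- The permutations of `X × G` commuting with all right translations of the second factor. -/
def eqv (X G : Type*) [Group G] : Subgroup (Equiv.Perm (X × G)) where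
  carrier := {σ | ∀ (p : X × G) (z : G), σ (p.1, p.2 * z) = ((σ p).1, (σ p).2 * z)}
  mul_mem' := by
    intro a b ha hb p z
    rw [Equiv.Perm.mul_apply, hb p z, ha (b p) z, Equiv.Perm.mul_apply]
  one_mem' := by intro p z; rfl
  inv_mem' := by
    intro a ha p z
    have h := ha (a⁻¹ p) z
    have h1 : a (a⁻¹ p) = p := by rw [← Equiv.Perm.mul_apply, mul_inv_cancel, Equiv.Perm.one_apply]
    rw [h1] at h
    rw [Equiv.Perm.inv_eq_iff_eq, h]

theorem mem_eqv {σ : Equiv.Perm (X × G)} :
    σ ∈ eqv X G ↔ ∀ (p : X × G) (z : G), σ (p.1, p.2 * z) = ((σ p).1, (σ p).2 * z) := Iff.rfl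

theorem eqv_apply {σ : Equiv.Perm (X × G)} (h : σ ∈ eqv X G) (x : X) (y : G) :
    σ (x, y) = ((σ (x, 1)).1, (σ (x, 1)).2 * y) := by
  have := h (x, 1) y
  simpa using this

theorem core_factor (Φ : H →* Equiv.Perm (X × G)) (f : G →* H) (x0 : X)
    (hΦ : ∀ h, Φ h ∈ eqv X G) (hf : ∀ g x y, Φ (f g) (x, y) = (x, g * y)) (g : G) (h : H) (y : G) :
    Φ (h * f g * h⁻¹) (x0, y)
      = (x0, ((Φ h⁻¹ (x0, 1)).2)⁻¹ * g * (Φ h⁻¹ (x0, 1)).2 * y) := by
  set k := (Φ h⁻¹ (x0, 1)).2 with hk
  set x' := (Φ h⁻¹ (x0, 1)).1 with hx'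
  have h1 : ∀ z, Φ h⁻¹ (x0, z) = (x', k * z) := fun z => eqv_apply (hΦ _) x0 z
  have h2 : ∀ z, Φ h (x', k * z) = (x0, z) := by
    intro z
    rw [← h1 z, ← Equiv.Perm.mul_apply, ← map_mul, mul_inv_cancel, map_one, Equiv.Perm.one_apply]
  rw [map_mul, map_mul, Equiv.Perm.mul_apply, Equiv.Perm.mul_apply, h1 y, hf]
  have : g * (k * y) = k * (k⁻¹ * g * k * y) := by group
  rw [this, h2]

theorem core (Φ : H →* Equiv.Perm (X × G)) (f : G →* H) (x0 : X)
    (hΦ : ∀ h, Φ h ∈ eqv X G) (hf : ∀ g x y, Φ (f g) (x, y) = (x, g * y))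
    (r : ℕ) (g : Fin r → G) (h : Fin r → H)
    (hprod : (List.ofFn (fun i => h i * f (g i) * (h i)⁻¹)).prod = 1) :
    ∃ x : Fin r → G, (List.ofFn (fun i => x i * g i * (x i)⁻¹)).prod = 1 := by
  have key : ∀ (r : ℕ) (g : Fin r → G) (h : Fin r → H) (y : G),
      Φ (List.ofFn (fun i => h i * f (g i) * (h i)⁻¹)).prod (x0, y) =
      (x0, (List.ofFn (fun i => ((Φ (h i)⁻¹ (x0, 1)).2)⁻¹ * g i * (Φ (h i)⁻¹ (x0, 1)).2)).prod * y) := by
    intro r
    induction r with
    | zero => intro g h y; simp
    | succ r ih =>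
      intro g h y
      rw [List.ofFn_succ, List.ofFn_succ, List.prod_cons, List.prod_cons, map_mul,
        Equiv.Perm.mul_apply, ih, core_factor Φ f x0 hΦ hf]
      simp only [mul_assoc]
  refine ⟨fun i => ((Φ (h i)⁻¹ (x0, 1)).2)⁻¹, ?_⟩
  have := key r g h 1
  rw [hprod, map_one, Equiv.Perm.one_apply, Prod.mk.injEq] at this
  have h2 := this.2
  simp only [inv_inv]
  rw [mul_one] at h2
  exact h2.symm

end Wreath

/-! ### Step 2: an abelian overgroup acts through a transversal cocycle -/

section Transversal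

variable {A B G : Type*} [Group A] [CommGroup B] [Group G]

/-- The cocycle attached to the transversal `Quotient.out` of `ι A` in `B`. -/
theorem exists_cocycle (ι : A →* B) (b : B) (x : B ⧸ ι.range) :
    ∃ a : A, ι a = (Quotient.out (b • x))⁻¹ * b * Quotient.out x := by
  have h : ((Quotient.out (b • x) : B) : B ⧸ ι.range) = ((b * Quotient.out x : B) : B ⧸ ι.range) := by
    rw [QuotientGroup.out_eq']
    conv_lhs => rw [← QuotientGroup.out_eq' x]
    rfl
  rw [QuotientGroup.eq] at h
  obtain ⟨a, ha⟩ := h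
  exact ⟨a, by rw [ha, mul_assoc]⟩

noncomputable def coc (ι : A →* B) (b : B) (x : B ⧸ ι.range) : A := (exists_cocycle ι b x).choose

theorem coc_spec (ι : A →* B) (b : B) (x : B ⧸ ι.range) :
    ι (coc ι b x) = (Quotient.out (b • x))⁻¹ * b * Quotient.out x := (exists_cocycle ι b x).choose_spec

theorem coc_mul {ι : A →* B} (hι : Function.Injective ι) (b b' : B) (x : B ⧸ ι.range) :
    coc ι (b * b') x = coc ι b (b' • x) * coc ι b' x := by
  apply hι
  rw [map_mul, coc_spec, coc_spec, coc_spec, mul_smul]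
  group

theorem coc_one {ι : A →* B} (hι : Function.Injective ι) (x : B ⧸ ι.range) : coc ι 1 x = 1 := by
  apply hι
  rw [coc_spec, one_smul, map_one]
  group

theorem smul_range {ι : A →* B} (a : A) (x : B ⧸ ι.range) : ι a • x = x := by
  induction x using QuotientGroup.induction_on with
  | H z =>
    change ((ι a * z : B) : B ⧸ ι.range) = (z : B ⧸ ι.range)
    rw [QuotientGroup.eq]
    refine ⟨a⁻¹, ?_⟩
    rw [map_inv, mul_inv, mul_assoc, mul_comm z⁻¹ z, mul_inv_cancel, mul_one]

theorem coc_range {ι : A →* B} (hι : Function.Injective ι) (a : A) (x : B ⧸ ι.range) :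
    coc ι (ι a) x = a := by
  apply hι
  rw [coc_spec, smul_range, mul_comm _ (ι a), mul_assoc, inv_mul_cancel, mul_one]

/-- The action of `B` on `(B ⧸ ι A) × G`. -/
noncomputable def act {ι : A →* B} (hι : Function.Injective ι) (j : A →* G) :
    B →* Equiv.Perm ((B ⧸ ι.range) × G) :=
  letI : MulAction B ((B ⧸ ι.range) × G) :=
    { smul := fun b p => (b • p.1, j (coc ι b p.1) * p.2)
      one_smul := by
        rintro ⟨x, y⟩
        change ((1 : B) • x, j (coc ι 1 x) * y) = (x, y)
        rw [coc_one hι, one_smul, map_one, one_mul]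
      mul_smul := by
        rintro b b' ⟨x, y⟩
        change ((b * b') • x, j (coc ι (b * b') x) * y) =
          (b • b' • x, j (coc ι b (b' • x)) * (j (coc ι b' x) * y))
        rw [coc_mul hι, mul_smul, map_mul, mul_assoc] }
  MulAction.toPermHom B ((B ⧸ ι.range) × G)

theorem act_apply {ι : A →* B} (hι : Function.Injective ι) (j : A →* G) (b : B)
    (x : B ⧸ ι.range) (y : G) : act hι j b (x, y) = (b • x, j (coc ι b x) * y) := rfl

theorem act_mem {ι : A →* B} (hι : Function.Injective ι) (j : A →* G) (b : B) :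
    act hι j b ∈ eqv (B ⧸ ι.range) G := by
  rintro ⟨x, y⟩ z
  simp only [act_apply, mul_assoc]

theorem act_range {ι : A →* B} (hι : Function.Injective ι) (j : A →* G) (a : A)
    (x : B ⧸ ι.range) (y : G) : act hι j (ι a) (x, y) = (x, j a * y) := by
  rw [act_apply, coc_range hι, smul_range]

end Transversal

/-! ### Step 3: the abelian overgroup defined by the equations of one level -/

section Level

variable {A : Type*} [CommGroup A] {J : Type*} [Fintype J]

/-- The subgroup of `A × ℤ^J` generated by the abelianized equations. -/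
def relSub (p : J → A × Multiplicative (J → ℤ)) : Subgroup (A × Multiplicative (J → ℤ)) :=
  Subgroup.closure (Set.range p)

theorem mem_relSub [DecidableEq J] {p : J → A × Multiplicative (J → ℤ)}
    {z : A × Multiplicative (J → ℤ)} (hz : z ∈ relSub p) :
    ∃ l : J → ℤ, z = ∏ j, p j ^ l j := by
  unfold relSub at hz
  induction hz using Subgroup.closure_induction with
  | mem x hx =>
    obtain ⟨j, rfl⟩ := hx
    refine ⟨Pi.single j 1, ?_⟩
    rw [Finset.prod_eq_single j]
    · simp
    · intro i _ hij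
      rw [Pi.single_eq_of_ne hij, zpow_zero]
    · intro h; exact absurd (Finset.mem_univ j) h
  | one => exact ⟨0, by simp⟩
  | mul x y _ _ hx hy =>
    obtain ⟨l, rfl⟩ := hx
    obtain ⟨m, rfl⟩ := hy
    refine ⟨l + m, ?_⟩
    rw [← Finset.prod_mul_distrib]
    exact Finset.prod_congr rfl fun j _ => by rw [Pi.add_apply, zpow_add]
  | inv x _ hx =>
    obtain ⟨l, rfl⟩ := hx
    refine ⟨-l, ?_⟩
    rw [← Finset.prod_inv_distrib]
    exact Finset.prod_congr rfl fun j _ => by rw [Pi.neg_apply, zpow_neg]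

theorem relSub_inj [DecidableEq J] (p : J → A × Multiplicative (J → ℤ))
    (hdet : (Matrix.of (fun i j : J => Multiplicative.toAdd (p j).2 i)).det ≠ 0) :
    Function.Injective ((QuotientGroup.mk' (relSub p)).comp (MonoidHom.inl A _)) := by
  rw [injective_iff_map_eq_one]
  intro a ha
  rw [MonoidHom.comp_apply, QuotientGroup.mk'_apply, QuotientGroup.eq_one_iff] at ha
  obtain ⟨l, hl⟩ := mem_relSub ha
  have h2 : (1 : Multiplicative (J → ℤ)) = ∏ j, (p j).2 ^ l j := by
    have := congrArg Prod.snd hl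
    simpa [Prod.snd_prod] using this
  have h3 : (Matrix.of (fun i j : J => Multiplicative.toAdd (p j).2 i)).mulVec l = 0 := by
    funext i
    have := congrArg (fun q : Multiplicative (J → ℤ) => Multiplicative.toAdd q i) h2
    simp only [toAdd_one, Pi.zero_apply, toAdd_prod, toAdd_zpow, Finset.sum_apply, Pi.smul_apply] at this
    simp only [Matrix.mulVec, dotProduct, Matrix.of_apply, Pi.zero_apply]
    rw [this]
    exact Finset.sum_congr rfl fun j _ => by rw [smul_eq_mul, mul_comm]
  have h4 : l = 0 := Matrix.eq_zero_of_mulVec_eq_zero hdet h3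
  have h5 := congrArg Prod.fst hl
  rw [h4] at h5
  simpa using h5

end Level

/-! ### Step 4: composing two layers -/

section Layers

variable {X Y G : Type*} [Group G]

/-- Permutations of `Y × G` acting on `(X × Y) × G` by ignoring `X`. -/
def lft (X Y G : Type*) : Equiv.Perm (Y × G) →* Equiv.Perm ((X × Y) × G) where
  toFun σ :=
    { toFun := fun p => ((p.1.1, (σ (p.1.2, p.2)).1), (σ (p.1.2, p.2)).2)
      invFun := fun p => ((p.1.1, (σ⁻¹ (p.1.2, p.2)).1), (σ⁻¹ (p.1.2, p.2)).2)
      left_inv := by rintro ⟨⟨x, y⟩, z⟩; simp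
      right_inv := by rintro ⟨⟨x, y⟩, z⟩; simp }
  map_one' := by ext p <;> simp
  map_mul' := by
    intro σ τ
    refine Equiv.ext ?_
    rintro ⟨⟨x, y⟩, z⟩
    simp

omit [Group G] in
theorem lft_apply (σ : Equiv.Perm (Y × G)) (x : X) (y : Y) (z : G) :
    lft X Y G σ ((x, y), z) = ((x, (σ (y, z)).1), (σ (y, z)).2) := rfl

theorem lft_mem {σ : Equiv.Perm (Y × G)} (h : σ ∈ eqv Y G) : lft X Y G σ ∈ eqv (X × Y) G := by
  rintro ⟨⟨x, y⟩, z⟩ z'
  simp only [lft_apply]
  have := h (y, z) z'
  simp only at this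
  rw [this]

/-- Left translations on the second factor. -/
def lam (Y : Type*) (G : Type*) [Group G] : G →* Equiv.Perm (Y × G) where
  toFun g :=
    { toFun := fun p => (p.1, g * p.2)
      invFun := fun p => (p.1, g⁻¹ * p.2)
      left_inv := by rintro ⟨x, y⟩; simp
      right_inv := by rintro ⟨x, y⟩; simp }
  map_one' := by ext p <;> simp
  map_mul' := by
    intro a b
    refine Equiv.ext ?_
    rintro ⟨x, y⟩
    simp [mul_assoc]

theorem lam_apply (Y : Type*) (G : Type*) [Group G] (g : G) (x : Y) (y : G) :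
    lam Y G g (x, y) = (x, g * y) := rfl

theorem lam_mem (Y : Type*) (G : Type*) [Group G] (g : G) : lam Y G g ∈ eqv Y G := by
  rintro ⟨x, y⟩ z
  simp only [lam_apply, mul_assoc]

theorem lft_lam (g : G) : lft X Y G (lam Y G g) = lam (X × Y) G g := by
  refine Equiv.ext ?_
  rintro ⟨⟨x, y⟩, z⟩
  rfl

end Layers

/-! ### Step 5: the action of the abelian overgroup on a new layer -/

section NewLayer

variable {B Y G : Type*} [CommGroup B] [Group G]

/-- If `A'` is a commutative group of permutations of `Y × G` embedded in the abelian group `B`,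
then `B` acts on `(B ⧸ A') × Y × G`. -/
noncomputable def act2 {A' : Type*} [Group A'] (j : A' →* Equiv.Perm (Y × G)) {ι : A' →* B}
    (hι : Function.Injective ι) : B →* Equiv.Perm (((B ⧸ ι.range) × Y) × G) where
  toFun b :=
    { toFun := fun p => ((b • p.1.1, (j (coc ι b p.1.1) (p.1.2, p.2)).1),
        (j (coc ι b p.1.1) (p.1.2, p.2)).2)
      invFun := fun p => ((b⁻¹ • p.1.1, (j (coc ι b⁻¹ p.1.1) (p.1.2, p.2)).1),
        (j (coc ι b⁻¹ p.1.1) (p.1.2, p.2)).2)
      left_inv := by
        rintro ⟨⟨x, y⟩, z⟩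
        have h : j (coc ι b⁻¹ (b • x)) ((j (coc ι b x)) (y, z)) = (y, z) := by
          rw [← Equiv.Perm.mul_apply, ← map_mul, ← coc_mul hι, inv_mul_cancel, coc_one hι, map_one,
            Equiv.Perm.one_apply]
        simp [h]
      right_inv := by
        rintro ⟨⟨x, y⟩, z⟩
        have h : j (coc ι b (b⁻¹ • x)) ((j (coc ι b⁻¹ x)) (y, z)) = (y, z) := by
          rw [← Equiv.Perm.mul_apply, ← map_mul, ← coc_mul hι, mul_inv_cancel, coc_one hι, map_one,
            Equiv.Perm.one_apply]
        simp [h] }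
  map_one' := by
    refine Equiv.ext ?_
    rintro ⟨⟨x, y⟩, z⟩
    simp [coc_one hι]
  map_mul' := by
    intro b b'
    refine Equiv.ext ?_
    rintro ⟨⟨x, y⟩, z⟩
    simp [coc_mul hι, mul_smul]

omit [Group G] in
theorem act2_apply {A' : Type*} [Group A'] (j : A' →* Equiv.Perm (Y × G)) {ι : A' →* B}
    (hι : Function.Injective ι) (b : B) (x : B ⧸ ι.range) (y : Y) (z : G) :
    act2 j hι b ((x, y), z) =
      ((b • x, (j (coc ι b x) (y, z)).1), (j (coc ι b x) (y, z)).2) := rfl

theorem act2_mem {A' : Type*} [Group A'] (j : A' →* Equiv.Perm (Y × G)) {ι : A' →* B}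
    (hι : Function.Injective ι) (hj : ∀ a, j a ∈ eqv Y G) (b : B) :
    act2 j hι b ∈ eqv ((B ⧸ ι.range) × Y) G := by
  rintro ⟨⟨x, y⟩, z⟩ z'
  simp only [act2_apply]
  have := hj (coc ι b x) (y, z) z'
  simp only at this
  rw [this]

omit [Group G] in
theorem act2_range {A' : Type*} [Group A'] (j : A' →* Equiv.Perm (Y × G)) {ι : A' →* B}
    (hι : Function.Injective ι) (a : A') :
    act2 j hι (ι a) = lft (B ⧸ ι.range) Y G (j a) := by
  refine Equiv.ext ?_
  rintro ⟨⟨x, y⟩, z⟩
  rw [act2_apply, coc_range hι, smul_range, lft_apply]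

end NewLayer

/-! ### Step 6: the induction over the levels -/

section Main

universe u

variable {G : Type u} [Group G] {n : ℕ}

/-- Exponent-sum homomorphism of the variable `t_i`, killing `G`. -/
def expo (G : Type*) [Group G] (n : ℕ) (i : Fin n) :
    Coprod G (FreeGroup (Fin n)) →* Multiplicative ℤ :=
  Coprod.lift (1 : G →* Multiplicative ℤ)
    (FreeGroup.lift (fun k : Fin n => if k = i then Multiplicative.ofAdd (1 : ℤ) else 1))

/-- `levelSub G n S` is the subgroup of `G * F_n` generated by `G` and the variables `t_i` with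
`i` in `S`. -/
def levelSub (G : Type*) [Group G] (n : ℕ) (S : Set (Fin n)) : Subgroup (Coprod G (FreeGroup (Fin n))) :=
  Subgroup.closure (Set.range (fun g : G => (Coprod.inl g : Coprod G (FreeGroup (Fin n)))) ∪
    (fun i : Fin n => (Coprod.inr (FreeGroup.of i) : Coprod G (FreeGroup (Fin n)))) '' S)

theorem expo_inl (i : Fin n) (g : G) : expo G n i (Coprod.inl g) = 1 := by
  simp [expo]

theorem expo_inr (i k : Fin n) :
    expo G n i (Coprod.inr (FreeGroup.of k)) = if k = i then Multiplicative.ofAdd (1 : ℤ) else 1 := by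
  simp [expo]

theorem expo_levelSub {S : Set (Fin n)} {i : Fin n} (hi : i ∉ S)
    {z : Coprod G (FreeGroup (Fin n))} (hz : z ∈ levelSub G n S) : expo G n i z = 1 := by
  unfold levelSub at hz
  induction hz using Subgroup.closure_induction with
  | mem x hx =>
    rcases hx with ⟨a, rfl⟩ | ⟨k, hk, rfl⟩
    · exact expo_inl i a
    · change expo G n i (Coprod.inr (FreeGroup.of k)) = 1
      rw [expo_inr, if_neg]
      rintro rfl
      exact hi hk
  | one => exact map_one _
  | mul x y _ _ hx hy => rw [map_mul, hx, hy, mul_one]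
  | inv x _ hx => rw [map_inv, hx, inv_one]

theorem levelSub_mono {S T : Set (Fin n)} (h : S ⊆ T) : levelSub G n S ≤ levelSub G n T :=
  Subgroup.closure_mono (Set.union_subset_union le_rfl (Set.image_mono h))

theorem mem_range_eqv {Y : Type*} (τ : Fin n → Equiv.Perm (Y × G)) (hτ : ∀ i, τ i ∈ eqv Y G)
    (z : Coprod G (FreeGroup (Fin n))) :
    Coprod.lift (lam Y G) (FreeGroup.lift τ) z ∈ eqv Y G := by
  induction z using Coprod.induction_on with
  | inl g => rw [Coprod.lift_apply_inl]; exact lam_mem _ _ _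
  | inr y =>
    rw [Coprod.lift_apply_inr]
    have hle : (FreeGroup.lift τ).range ≤ eqv Y G := by
      rw [FreeGroup.range_lift_eq_closure, Subgroup.closure_le]
      rintro _ ⟨i, rfl⟩
      exact hτ i
    exact hle ⟨y, rfl⟩
  | mul x y hx hy => rw [map_mul]; exact Subgroup.mul_mem _ hx hy

/-- `Good w β b`: there is a monomial action in which `G` acts diagonally and which kills all
equations of level below `b`. -/
def Good (w : Fin n → Coprod G (FreeGroup (Fin n))) (β : Fin n → ℕ) (b : ℕ) : Prop :=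
  ∃ (Y : Type u) (_ : Nonempty Y) (τ : Fin n → Equiv.Perm (Y × G)), (∀ i, τ i ∈ eqv Y G) ∧
    ∀ j, β j < b → Coprod.lift (lam Y G) (FreeGroup.lift τ) (w j) = 1

theorem step (w : Fin n → Coprod G (FreeGroup (Fin n))) (β : Fin n → ℕ) (b : ℕ)
    (hdet : (Matrix.of (fun i j : {i : Fin n // β i = b} =>
      Multiplicative.toAdd (expo G n (i : Fin n) (w j)))).det ≠ 0)
    (A : Subgroup (Coprod G (FreeGroup (Fin n)))) (hA1 : A ≤ levelSub G n {i | β i < b})
    (hA2 : ∀ x ∈ A, ∀ y ∈ A, x * y * x⁻¹ * y⁻¹ ∈ Subgroup.normalClosure {z | ∃ j, β j < b ∧ z = w j})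
    (c d : Fin n → Coprod G (FreeGroup (Fin n)))
    (hc : ∀ i, β i = b → c i ∈ levelSub G n {i | β i < b})
    (hd : ∀ i, β i = b → d i ∈ levelSub G n {i | β i < b})
    (u : Fin n → Coprod G (FreeGroup (Fin n)))
    (hw : ∀ j, β j = b → u j * w j * (u j)⁻¹ ∈ Subgroup.closure
      ((A : Set (Coprod G (FreeGroup (Fin n)))) ∪
        {z | ∃ i, β i = b ∧ z = c i * Coprod.inr (FreeGroup.of i) * d i}))
    (hlow : ∀ j, β j < b → u j * w j * (u j)⁻¹ ∈ levelSub G n {i | β i < b})
    (ih : Good w β b) : Good w β (b + 1) := by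
  classical
  obtain ⟨Y, hY, τ, hτ, hτw⟩ := ih
  set Φ : Coprod G (FreeGroup (Fin n)) →* Equiv.Perm (Y × G) :=
    Coprod.lift (lam Y G) (FreeGroup.lift τ) with hΦdef
  have hΦmem : ∀ z, Φ z ∈ eqv Y G := mem_range_eqv τ hτ
  have hker : Subgroup.normalClosure {z | ∃ j, β j < b ∧ z = w j} ≤ Φ.ker := by
    apply Subgroup.normalClosure_le_normal
    rintro _ ⟨j, hj, rfl⟩
    exact hτw j hj
  let A' : Subgroup (Equiv.Perm (Y × G)) := A.map Φ
  letI instA : CommGroup A' :=
    { (inferInstance : Group A') with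
      mul_comm := by
        rintro ⟨x, hx⟩ ⟨y, hy⟩
        obtain ⟨x', hx', rfl⟩ := hx
        obtain ⟨y', hy', rfl⟩ := hy
        apply Subtype.ext
        change Φ x' * Φ y' = Φ y' * Φ x'
        have h1 := hker (hA2 x' hx' y' hy')
        rw [MonoidHom.mem_ker, map_mul, map_mul, map_mul, map_inv, map_inv] at h1
        rw [mul_inv_eq_one, mul_inv_eq_iff_eq_mul] at h1
        exact h1 }
  let gen : Set (Coprod G (FreeGroup (Fin n)) × (A' × Multiplicative ({i : Fin n // β i = b} → ℤ))) :=
    {q | (∃ a, ∃ ha : a ∈ A, q = (a, (⟨Φ a, Subgroup.mem_map_of_mem Φ ha⟩, 1))) ∨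
      (∃ i : {i : Fin n // β i = b}, q = (c i * Coprod.inr (FreeGroup.of (i : Fin n)) * d i,
        (1, Multiplicative.ofAdd (Pi.single i 1))))}
  have hgen : ∀ (z : Coprod G (FreeGroup (Fin n))),
      z ∈ Subgroup.closure ((A : Set (Coprod G (FreeGroup (Fin n)))) ∪
        {z | ∃ i, β i = b ∧ z = c i * Coprod.inr (FreeGroup.of i) * d i}) →
      ∃ q, (z, q) ∈ Subgroup.closure gen := by
    intro z hz
    induction hz using Subgroup.closure_induction with
    | mem x hx =>
      rcases hx with hx | ⟨i, hi, rfl⟩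
      · exact ⟨_, Subgroup.subset_closure (Or.inl ⟨x, hx, rfl⟩)⟩
      · exact ⟨_, Subgroup.subset_closure (Or.inr ⟨⟨i, hi⟩, rfl⟩)⟩
    | one => exact ⟨1, Subgroup.one_mem _⟩
    | mul x y _ _ hx hy =>
      obtain ⟨q, hq⟩ := hx
      obtain ⟨q', hq'⟩ := hy
      exact ⟨q * q', Subgroup.mul_mem _ hq hq'⟩
    | inv x _ hx =>
      obtain ⟨q, hq⟩ := hx
      exact ⟨q⁻¹, Subgroup.inv_mem _ hq⟩
  have hnot : ∀ i : {i : Fin n // β i = b}, (i : Fin n) ∉ {i | β i < b} := by
    rintro ⟨i, hi⟩ h
    exact absurd hi (ne_of_lt h)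
  have hexp : ∀ q ∈ Subgroup.closure gen, ∀ i : {i : Fin n // β i = b},
      expo G n i q.1 = Multiplicative.ofAdd (Multiplicative.toAdd q.2.2 i) := by
    intro q hq
    induction hq using Subgroup.closure_induction with
    | mem x hx =>
      intro i
      rcases hx with ⟨a, ha, rfl⟩ | ⟨k, rfl⟩
      · simp only [toAdd_one, Pi.zero_apply, ofAdd_zero]
        exact expo_levelSub (hnot i) (hA1 ha)
      · simp only [map_mul, toAdd_ofAdd]
        rw [expo_levelSub (hnot i) (hc _ k.2), expo_levelSub (hnot i) (hd _ k.2), expo_inr, one_mul, mul_one,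
          Pi.single_apply]
        by_cases hki : k = i
        · subst hki; simp
        · have hki' : ¬ ((k : Fin n) = i) := fun h => hki (Subtype.ext h)
          simp [hki', Ne.symm hki]
    | one => intro i; simp
    | mul x y _ _ hx hy => intro i; simp [hx i, hy i]
    | inv x _ hx => intro i; simp [hx i]
  have hex : ∀ j : {i : Fin n // β i = b}, ∃ q : A' × Multiplicative ({i : Fin n // β i = b} → ℤ),
      (u j * w j * (u j)⁻¹, q) ∈ Subgroup.closure gen := fun j => hgen _ (hw j j.2)
  choose p hp using hex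
  have hp1 : ∀ i j, Multiplicative.toAdd (p j).2 i = Multiplicative.toAdd (expo G n i (w j)) := by
    intro i j
    have := hexp _ (hp j) i
    simp only [map_mul, map_inv, mul_inv_cancel_comm] at this
    rw [this, toAdd_ofAdd]
  let ι : A' →* ((A' × Multiplicative ({i : Fin n // β i = b} → ℤ)) ⧸ relSub p) :=
    (QuotientGroup.mk' (relSub p)).comp (MonoidHom.inl A' _)
  have hι : Function.Injective ι := by
    apply relSub_inj
    convert hdet using 4
    funext j
    exact hp1 _ _
  have hj : ∀ a : A', A'.subtype a ∈ eqv Y G := by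
    rintro ⟨a, z, hz, rfl⟩
    exact hΦmem z
  let X : Type u := ((A' × Multiplicative ({i : Fin n // β i = b} → ℤ)) ⧸ relSub p) ⧸ ι.range
  let Ψ : ((A' × Multiplicative ({i : Fin n // β i = b} → ℤ)) ⧸ relSub p) →*
      Equiv.Perm ((X × Y) × G) := act2 A'.subtype hι
  have hΨmem : ∀ z, Ψ z ∈ eqv (X × Y) G := act2_mem A'.subtype hι hj
  let τ' : Fin n → Equiv.Perm ((X × Y) × G) := fun i =>
    if h : β i = b then
      (lft X Y G (Φ (c i)))⁻¹ *
        Ψ (QuotientGroup.mk' (relSub p) (1, Multiplicative.ofAdd (Pi.single ⟨i, h⟩ 1))) *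
        (lft X Y G (Φ (d i)))⁻¹
    else lft X Y G (τ i)
  have hτ' : ∀ i, τ' i ∈ eqv (X × Y) G := by
    intro i
    by_cases h : β i = b
    · simp only [τ', dif_pos h]
      exact Subgroup.mul_mem _ (Subgroup.mul_mem _ (Subgroup.inv_mem _ (lft_mem (hΦmem _)))
        (hΨmem _)) (Subgroup.inv_mem _ (lft_mem (hΦmem _)))
    · simp only [τ', dif_neg h]
      exact lft_mem (hτ i)
  set Φ' : Coprod G (FreeGroup (Fin n)) →* Equiv.Perm ((X × Y) × G) :=
    Coprod.lift (lam (X × Y) G) (FreeGroup.lift τ') with hΦ'def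
  have hinl : ∀ g, Φ' (Coprod.inl g) = lam (X × Y) G g := fun g => by
    simp only [Φ', Coprod.lift_apply_inl]
  have hinr : ∀ i, Φ' (Coprod.inr (FreeGroup.of i)) = τ' i := fun i => by
    simp only [Φ', Coprod.lift_apply_inr, FreeGroup.lift_apply_of]
  have hlift : ∀ z ∈ levelSub G n {i | β i < b}, Φ' z = lft X Y G (Φ z) := by
    intro z hz
    unfold levelSub at hz
    induction hz using Subgroup.closure_induction with
    | mem x hx =>
      rcases hx with ⟨a, rfl⟩ | ⟨k, hk, rfl⟩
      · simp only [hinl, Φ, Coprod.lift_apply_inl, lft_lam]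
      · have hk' : ¬ β k = b := ne_of_lt hk
        simp only [hinr, Φ, Coprod.lift_apply_inr, FreeGroup.lift_apply_of, τ', dif_neg hk']
    | one => simp
    | mul x y _ _ hx hy => rw [map_mul, map_mul, map_mul, hx, hy]
    | inv x _ hx => rw [map_inv, map_inv, map_inv, hx]
  have htw : ∀ i : {i : Fin n // β i = b},
      Φ' (c i * Coprod.inr (FreeGroup.of (i : Fin n)) * d i) =
        Ψ (QuotientGroup.mk' (relSub p) (1, Multiplicative.ofAdd (Pi.single i 1))) := by
    rintro ⟨i, hi⟩
    rw [map_mul, map_mul, hlift _ (hc i hi), hlift _ (hd i hi), hinr]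
    simp only [τ', dif_pos hi]
    group
  have hrel : ∀ q ∈ Subgroup.closure gen, Φ' q.1 = Ψ (QuotientGroup.mk' (relSub p) q.2) := by
    intro q hq
    induction hq using Subgroup.closure_induction with
    | mem x hx =>
      rcases hx with ⟨a, ha, rfl⟩ | ⟨k, rfl⟩
      · have h1 : Ψ (ι ⟨Φ a, Subgroup.mem_map_of_mem Φ ha⟩) = lft X Y G (Φ a) :=
          act2_range A'.subtype hι ⟨Φ a, Subgroup.mem_map_of_mem Φ ha⟩
        exact (hlift a (hA1 ha)).trans h1.symm
      · exact htw k
    | one => simp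
    | mul x y _ _ hx hy => rw [Prod.fst_mul, Prod.snd_mul, map_mul, map_mul, map_mul, hx, hy]
    | inv x _ hx => rw [Prod.fst_inv, Prod.snd_inv, map_inv, map_inv, map_inv, hx]
  refine ⟨X × Y, ⟨((1 : (A' × Multiplicative ({i : Fin n // β i = b} → ℤ)) ⧸ relSub p), hY.some)⟩,
    τ', hτ', ?_⟩
  intro j hj
  rcases Nat.lt_succ_iff_lt_or_eq.mp hj with hj | hj
  · have h1 := hlift _ (hlow j hj)
    have h2 : Φ (u j * w j * (u j)⁻¹) = 1 := by
      rw [map_mul, map_mul, map_inv, hτw j hj]; simp
    rw [h2, map_one, map_mul, map_mul, map_inv] at h1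
    exact conj_eq_one_iff.mp h1
  · have h1 := hrel _ (hp ⟨j, hj⟩)
    have h2 : QuotientGroup.mk' (relSub p) (p ⟨j, hj⟩) = 1 := by
      rw [QuotientGroup.mk'_apply, QuotientGroup.eq_one_iff]
      exact Subgroup.subset_closure ⟨_, rfl⟩
    simp only at h1
    rw [h2, map_one, map_mul, map_mul, map_inv] at h1
    exact conj_eq_one_iff.mp h1

/-- **Theorem.** Let `G` be any group, and let `w_1, …, w_n` be a nonsingular system over `G`.
Suppose that the variables `t_i` and the equations `w_i` carry levels `β i` such that for every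
level `b` there is a subgroup `A b` of `⟨G, t_i (β i < b)⟩`, commutative modulo the equations of
level below `b`, and every equation `w_j` of level `b` is, up to conjugacy in `G * F_n`, a word in
`A b` and the twisted variables `c_i t_i d_i` (`β i = b`), with `c_i, d_i` in
`⟨G, t_k (β k < b)⟩`.  Then the Kervaire extension `G → H = (G * F_n)/⟨⟨w_1, …, w_n⟩⟩` reflects all
product-one relations between conjugacy classes of elements of `G`. -/
theorem main (G : Type u) [Group G] (n : ℕ)
    (w : Fin n → Coprod G (FreeGroup (Fin n)))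
    (hdet : (Matrix.of (fun i j : Fin n => Multiplicative.toAdd
        (Coprod.lift (1 : G →* Multiplicative ℤ)
          (FreeGroup.lift (fun k : Fin n =>
            if k = i then Multiplicative.ofAdd (1 : ℤ) else 1)) (w j)))).det ≠ 0)
    (β : Fin n → ℕ)
    (A : ℕ → Subgroup (Coprod G (FreeGroup (Fin n))))
    (hA1 : ∀ b, A b ≤ levelSub G n {i | β i < b})
    (hA2 : ∀ b, ∀ x ∈ A b, ∀ y ∈ A b,
      x * y * x⁻¹ * y⁻¹ ∈ Subgroup.normalClosure {z | ∃ j, β j < b ∧ z = w j})
    (c d : Fin n → Coprod G (FreeGroup (Fin n)))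
    (hc : ∀ i, c i ∈ levelSub G n {k | β k < β i})
    (hd : ∀ i, d i ∈ levelSub G n {k | β k < β i})
    (u : Fin n → Coprod G (FreeGroup (Fin n)))
    (hw : ∀ j, u j * w j * (u j)⁻¹ ∈ Subgroup.closure
      ((A (β j) : Set (Coprod G (FreeGroup (Fin n)))) ∪
        {z | ∃ i, β i = β j ∧ z = c i * Coprod.inr (FreeGroup.of i) * d i}))
    (r : ℕ) (g : Fin r → G)
    (hH : ∃ h : Fin r → (Coprod G (FreeGroup (Fin n)) ⧸ Subgroup.normalClosure (Set.range w)),
      (List.ofFn (fun i => h i *
        QuotientGroup.mk' (Subgroup.normalClosure (Set.range w)) (Coprod.inl (g i)) *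
          (h i)⁻¹)).prod = 1) :
    ∃ x : Fin r → G, (List.ofFn (fun i => x i * g i * (x i)⁻¹)).prod = 1 := by
  classical
  have hle : ∀ b, Subgroup.closure ((A b : Set (Coprod G (FreeGroup (Fin n)))) ∪
        {z | ∃ i, β i = b ∧ z = c i * Coprod.inr (FreeGroup.of i) * d i}) ≤
        levelSub G n {i | β i < b + 1} := by
    intro b
    rw [Subgroup.closure_le]
    have hm : levelSub G n {i | β i < b} ≤ levelSub G n {i | β i < b + 1} :=
      levelSub_mono (fun i (hi : β i < b) => Nat.lt_succ_of_lt hi)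
    rintro z (hz | ⟨i, hi, rfl⟩)
    · exact hm (hA1 b hz)
    · subst hi
      refine Subgroup.mul_mem _ (Subgroup.mul_mem _ (hm (hc i)) ?_) (hm (hd i))
      exact Subgroup.subset_closure (Or.inr ⟨i, Nat.lt_succ_self _, rfl⟩)
  have hwsub : ∀ j, u j * w j * (u j)⁻¹ ∈ levelSub G n {i | β i < β j + 1} := fun j => hle _ (hw j)
  let E : Matrix (Fin n) (Fin n) ℤ :=
    Matrix.of (fun i j : Fin n => Multiplicative.toAdd (expo G n i (w j)))
  have hE : E.det ≠ 0 := hdet
  have hexpo : ∀ i j, expo G n i (u j * w j * (u j)⁻¹) = expo G n i (w j) := by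
    intro i j
    simp only [map_mul, map_inv, mul_inv_cancel_comm]
  have htri : E.BlockTriangular β := by
    intro i j hij
    have h1 : i ∉ {k | β k < β j + 1} := by
      intro h
      have : β i < β j + 1 := h
      omega
    have h2 := expo_levelSub h1 (hwsub j)
    rw [hexpo] at h2
    change Multiplicative.toAdd (expo G n i (w j)) = 0
    rw [h2, toAdd_one]
  have hblock : ∀ b, (Matrix.of (fun i j : {i : Fin n // β i = b} =>
      Multiplicative.toAdd (expo G n (i : Fin n) (w j)))).det ≠ 0 := by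
    intro b
    by_cases hb : b ∈ Finset.univ.image β
    · rw [htri.det] at hE
      exact Finset.prod_ne_zero_iff.mp hE b hb
    · have : IsEmpty {i : Fin n // β i = b} := by
        constructor
        rintro ⟨i, hi⟩
        exact hb (Finset.mem_image.mpr ⟨i, Finset.mem_univ _, hi⟩)
      rw [Matrix.det_isEmpty]
      exact one_ne_zero
  have hgood : ∀ b, Good w β b := by
    intro b
    induction b with
    | zero =>
      exact ⟨PUnit, ⟨PUnit.unit⟩, fun _ => 1, fun _ => Subgroup.one_mem _,
        fun j hj => absurd hj (Nat.not_lt_zero _)⟩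
    | succ b ih =>
      refine step w β b (hblock b) (A b) (hA1 b) (hA2 b) c d
        (fun i hi => hi ▸ hc i) (fun i hi => hi ▸ hd i) u (fun j hj => ?_) (fun j hj => ?_) ih
      · subst hj; exact hw j
      · exact levelSub_mono (fun i (hi : β i < β j + 1) => by
          change β i < b
          omega) (hwsub j)
  obtain ⟨Y, hY, τ, hτ, hτw⟩ := hgood ((Finset.univ.sup β) + 1)
  have hker : Subgroup.normalClosure (Set.range w) ≤
      (Coprod.lift (lam Y G) (FreeGroup.lift τ)).ker := by
    apply Subgroup.normalClosure_le_normal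
    rintro _ ⟨j, rfl⟩
    exact hτw j (Nat.lt_succ_of_le (Finset.le_sup (Finset.mem_univ j)))
  obtain ⟨h, hprod⟩ := hH
  refine core (QuotientGroup.lift _ _ hker)
    ((QuotientGroup.mk' (Subgroup.normalClosure (Set.range w))).comp Coprod.inl)
    hY.some ?_ ?_ r g h hprod
  · intro z
    induction z using QuotientGroup.induction_on with
    | H z => exact mem_range_eqv τ hτ z
  · intro g x y
    change Coprod.lift (lam Y G) (FreeGroup.lift τ) (Coprod.inl g) (x, y) = _
    rw [Coprod.lift_apply_inl, lam_apply]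

end Main

end Pool.Agent.H76.IterAb
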